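import Mathlib

set_option autoImplicit false

namespace Pool.Agent.Results.MP_2b3591_co.Exponential

open Finset

/-- `F` is a `k`-uniform intersecting family with covering number exactly `k`. -/
def Good {α : Type} [DecidableEq α] (k : ℕ) (F : Finset (Finset α)) : Prop :=
  (∀ A ∈ F, A.card = k) ∧ (∀ A ∈ F, ∀ B ∈ F, (A ∩ B).Nonempty) ∧
    IsLeast {t : ℕ | ∃ T : Finset α, T.card = t ∧ ∀ A ∈ F, (T ∩ A).Nonempty} k

def Pre {α : Type} [DecidableEq α] (k r : ℕ) (F : Finset (Finset α)) : Prop :=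
  F.Nonempty ∧ (∀ A ∈ F, A.card = k) ∧ (∀ A ∈ F, ∀ B ∈ F, (A ∩ B).Nonempty) ∧
    ∀ B : Finset α, B.card = k - 1 → r ≤ (F.filter fun A => A ∩ B = ∅).card

theorem good_of_pre {α : Type} [DecidableEq α] [Fintype α] (k r : ℕ) (hr : 1 ≤ r)
    (F : Finset (Finset α)) (h : Pre k r F) : Good k F := by
  obtain ⟨⟨A, hA⟩, h1, h2, h3⟩ := h
  refine ⟨h1, h2, ⟨A, h1 A hA, fun B hB => h2 A hA B hB⟩, ?_⟩
  rintro t ⟨T, rfl, hT⟩
  by_contra hlt
  push Not at hlt
  have hk : k ≤ Fintype.card α := h1 A hA ▸ Finset.card_le_univ A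
  obtain ⟨B, hTB, -, hB⟩ := Finset.exists_subsuperset_card_eq (n := k - 1) (subset_univ T)
    (by omega) (by rw [card_univ]; omega)
  obtain ⟨C, hC⟩ := Finset.card_pos.1 (lt_of_lt_of_le hr (h3 B hB))
  obtain ⟨hCF, hC⟩ := mem_filter.1 hC
  obtain ⟨x, hx⟩ := hT C hCF
  have : x ∈ C ∩ B := mem_inter.2 ⟨(mem_inter.1 hx).2, hTB (mem_inter.1 hx).1⟩
  rw [hC] at this
  exact absurd this (notMem_empty _)

theorem pre_map {α β : Type} [DecidableEq α] [DecidableEq β] (e : α ≃ β) (k r : ℕ)
    (F : Finset (Finset α)) (h : Pre k r F) :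
    Pre k r (F.map (Finset.mapEmbedding e.toEmbedding).toEmbedding) := by
  obtain ⟨h0, h1, h2, h3⟩ := h
  refine ⟨h0.map, ?_, ?_, ?_⟩
  · intro A hA
    obtain ⟨A', hA', rfl⟩ := mem_map.1 hA
    simpa using h1 A' hA'
  · intro A hA B hB
    obtain ⟨A', hA', rfl⟩ := mem_map.1 hA
    obtain ⟨B', hB', rfl⟩ := mem_map.1 hB
    obtain ⟨x, hx⟩ := h2 A' hA' B' hB'
    refine ⟨e x, ?_⟩
    simpa using hx
  · intro B hB
    rw [Finset.filter_map, card_map]
    refine le_trans (h3 (B.map e.symm.toEmbedding) (by simpa using hB)) (le_of_eq ?_)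
    congr 1
    apply Finset.filter_congr
    intro A _
    simp only [Function.comp, RelEmbedding.coe_toEmbedding, mapEmbedding_apply,
      Finset.eq_empty_iff_forall_notMem, mem_inter, mem_map_equiv, Equiv.symm_symm]
    constructor
    · intro h y hy
      exact h (e.symm y) ⟨hy.1, by simpa using hy.2⟩
    · intro h x hx
      exact h (e x) ⟨by simpa using hx.1, hx.2⟩

section cyc
variable (p a : ℕ)

def sh (i : ZMod (2 * p + 1)) (t : Fin p) : ZMod (2 * p + 1) := i + (((t : ℕ) + 1 : ℕ) : _)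

theorem cast_inj {u v : ℕ} (hu : u < 2 * p + 1) (hv : v < 2 * p + 1)
    (h : (u : ZMod (2 * p + 1)) = v) : u = v := by
  have := congrArg ZMod.val h
  rwa [ZMod.val_natCast, ZMod.val_natCast, Nat.mod_eq_of_lt hu, Nat.mod_eq_of_lt hv] at this

theorem sh_inj (i : ZMod (2 * p + 1)) : Function.Injective (sh p i) := by
  intro s t h
  have := cast_inj p (by omega) (by omega) (add_left_cancel h)
  exact Fin.ext (by omega)

theorem sh_ne (i : ZMod (2 * p + 1)) (t : Fin p) : sh p i t ≠ i := by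
  intro h
  have h' : (((t : ℕ) + 1 : ℕ) : ZMod (2 * p + 1)) = ((0 : ℕ) : _) := by
    simpa [sh] using h
  have := cast_inj p (by omega) (by omega) h'
  omega

theorem sh_sh_ne (i : ZMod (2 * p + 1)) (s t : Fin p) : sh p (sh p i s) t ≠ i := by
  intro h
  have h' : (((s : ℕ) + 1 + ((t : ℕ) + 1) : ℕ) : ZMod (2 * p + 1)) = ((0 : ℕ) : _) := by
    simp only [sh, add_assoc, add_eq_left] at h
    rw [Nat.cast_add]
    simpa using h
  have := cast_inj p (by omega) (by omega) h'
  omega

theorem sh_tri (i j : ZMod (2 * p + 1)) (h : i ≠ j) :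
    (∃ t, sh p i t = j) ∨ ∃ t, sh p j t = i := by
  have h1 : (j - i).val < 2 * p + 1 := ZMod.val_lt _
  have h0 : (j - i).val ≠ 0 := by
    rw [Ne, ZMod.val_eq_zero, sub_eq_zero]
    exact h.symm
  have hc : (((j - i).val : ℕ) : ZMod (2 * p + 1)) = j - i := ZMod.natCast_zmod_val _
  by_cases hd : (j - i).val ≤ p
  · left
    refine ⟨⟨(j - i).val - 1, by omega⟩, ?_⟩
    simp only [sh]
    rw [Nat.sub_add_cancel (by omega), hc]
    ring
  · right
    refine ⟨⟨2 * p - (j - i).val, by omega⟩, ?_⟩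
    simp only [sh]
    have : 2 * p - (j - i).val + 1 = (2 * p + 1) - (j - i).val := by omega
    rw [this, Nat.cast_sub h1.le, hc, ZMod.natCast_self]
    ring

def mem (i : ZMod (2 * p + 1)) (f : Fin p → Fin a) : Finset (ZMod (2 * p + 1) × Fin a) :=
  (univ.image fun s => (i, s)) ∪ univ.image fun t => (sh p i t, f t)

theorem mem_mem (i : ZMod (2 * p + 1)) (f : Fin p → Fin a) (x : ZMod (2 * p + 1) × Fin a) :
    x ∈ mem p a i f ↔ x.1 = i ∨ ∃ t, x = (sh p i t, f t) := by
  simp only [mem, mem_union, mem_image, mem_univ, true_and]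
  constructor
  · rintro (⟨s, rfl⟩ | ⟨t, rfl⟩)
    · exact Or.inl rfl
    · exact Or.inr ⟨t, rfl⟩
  · rintro (h | ⟨t, rfl⟩)
    · exact Or.inl ⟨x.2, by rw [← h]⟩
    · exact Or.inr ⟨t, rfl⟩

theorem mem_card (i : ZMod (2 * p + 1)) (f : Fin p → Fin a) : (mem p a i f).card = a + p := by
  rw [mem, card_union_of_disjoint, card_image_of_injective, card_image_of_injective]
  · simp
  · intro s t h
    exact sh_inj p i (Prod.mk.inj h).1
  · intro s t h
    exact (Prod.mk.inj h).2
  · rw [Finset.disjoint_left]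
    intro x hx hy
    simp only [mem_image, mem_univ, true_and] at hx hy
    obtain ⟨s, rfl⟩ := hx
    obtain ⟨t, ht⟩ := hy
    exact sh_ne p i t (Prod.mk.inj ht).1

theorem mem_inj (i : ZMod (2 * p + 1)) : Function.Injective (mem p a i) := by
  intro f g h
  funext t
  have : (sh p i t, f t) ∈ mem p a i g := h ▸ (mem_mem p a i f _).2 (Or.inr ⟨t, rfl⟩)
  rcases (mem_mem p a i g _).1 this with h1 | ⟨s, hs⟩
  · exact absurd h1 (sh_ne p i t)
  · have := sh_inj p i (Prod.mk.inj hs).1
    subst this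
    exact (Prod.mk.inj hs).2

def fam : Finset (Finset (ZMod (2 * p + 1) × Fin a)) :=
  univ.image fun q : ZMod (2 * p + 1) × (Fin p → Fin a) => mem p a q.1 q.2

theorem pre_fam (hp : 3 ≤ p) (h1 : p ≤ a) (h2 : a ≤ p + 1) :
    Pre (a + p) (2 ^ (p - 2)) (fam p a) := by
  have ha : 0 < a := by omega
  refine ⟨⟨_, mem_image_of_mem _ (mem_univ (0, fun _ => ⟨0, ha⟩))⟩, ?_, ?_, ?_⟩
  · intro A hA
    obtain ⟨q, -, rfl⟩ := mem_image.1 hA
    exact mem_card p a _ _
  · intro A hA B hB
    obtain ⟨⟨i, f⟩, -, rfl⟩ := mem_image.1 hA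
    obtain ⟨⟨j, g⟩, -, rfl⟩ := mem_image.1 hB
    by_cases hij : i = j
    · exact ⟨(i, ⟨0, ha⟩), mem_inter.2 ⟨(mem_mem ..).2 (Or.inl rfl), (mem_mem ..).2 (Or.inl hij)⟩⟩
    · rcases sh_tri p i j hij with ⟨t, ht⟩ | ⟨t, ht⟩
      · exact ⟨(sh p i t, f t), mem_inter.2 ⟨(mem_mem ..).2 (Or.inr ⟨t, rfl⟩),
          (mem_mem ..).2 (Or.inl ht)⟩⟩
      · exact ⟨(sh p j t, g t), mem_inter.2 ⟨(mem_mem ..).2 (Or.inl ht),
          (mem_mem ..).2 (Or.inr ⟨t, rfl⟩)⟩⟩
  · intro B hB
    set b : ZMod (2 * p + 1) → ℕ := fun j => (univ.filter fun s : Fin a => (j, s) ∈ B).card with hb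
    have hsum : ∑ j, b j = a + p - 1 := by
      rw [← hB, Finset.card_eq_sum_card_fiberwise (f := Prod.fst) (t := univ)
        (fun _ _ => mem_coe.2 (mem_univ _))]
      apply Finset.sum_congr rfl
      intro j _
      apply Finset.card_bij (fun s _ => (j, s))
      · intro s hs
        simpa using hs
      · intro s _ t _ h
        exact (Prod.mk.inj h).2
      · intro x hx
        obtain ⟨hx1, hx2⟩ := mem_filter.1 hx
        subst hx2
        exact ⟨x.2, by simpa using hx1, rfl⟩
    have hsub : ∀ S : Finset (ZMod (2 * p + 1)), ∑ j ∈ S, b j ≤ a + p - 1 := fun S =>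
      hsum ▸ Finset.sum_le_sum_of_subset (subset_univ S)
    have hi : ∃ i, b i = 0 ∧ ∀ t, b (sh p i t) < a := by
      by_cases hfull : ∃ j, a ≤ b j
      · obtain ⟨j, hj⟩ := hfull
        have : ∃ s, b (sh p j s) = 0 := by
          by_contra hc
          push Not at hc
          have e1 := hsub (insert j (univ.image (sh p j)))
          rw [Finset.sum_insert (by
            simp only [mem_image, mem_univ, true_and, not_exists]
            exact fun t => sh_ne p j t), Finset.sum_image (fun s _ t _ h => sh_inj p j h)] at e1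
          have e2 : ∑ _s : Fin p, 1 ≤ ∑ s, b (sh p j s) :=
            Finset.sum_le_sum fun s _ => Nat.one_le_iff_ne_zero.2 (hc s)
          simp at e2
          omega
        obtain ⟨s, hs⟩ := this
        refine ⟨_, hs, fun t => ?_⟩
        have e1 := hsub {sh p (sh p j s) t, j}
        rw [Finset.sum_pair (sh_sh_ne p j s t)] at e1
        omega
      · push Not at hfull
        have : ∃ i, b i = 0 := by
          by_contra hc
          push Not at hc
          have e2 : ∑ _s : ZMod (2 * p + 1), 1 ≤ ∑ s, b s :=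
            Finset.sum_le_sum fun s _ => Nat.one_le_iff_ne_zero.2 (hc s)
          simp [ZMod.card] at e2
          omega
        obtain ⟨i, hi⟩ := this
        exact ⟨i, hi, fun t => hfull _⟩
    obtain ⟨i, hi0, hi⟩ := hi
    have hbad : (univ.filter fun t : Fin p => a - 1 ≤ b (sh p i t)).card ≤ 2 := by
      have e1 := hsub ((univ.filter fun t : Fin p => a - 1 ≤ b (sh p i t)).image (sh p i))
      rw [Finset.sum_image (fun s _ t _ h => sh_inj p i h)] at e1
      have e2 := Finset.card_nsmul_le_sum (univ.filter fun t : Fin p => a - 1 ≤ b (sh p i t))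
        (fun t => b (sh p i t)) (a - 1) (fun t ht => (mem_filter.1 ht).2)
      rw [smul_eq_mul] at e2
      by_contra hc
      push Not at hc
      have := Nat.mul_le_mul_right (a - 1) (show 3 ≤ _ from hc)
      omega
    have hgood : p - 2 ≤ (univ.filter fun t : Fin p => ¬ a - 1 ≤ b (sh p i t)).card := by
      have := Finset.card_filter_add_card_filter_not (s := univ)
        (fun t : Fin p => a - 1 ≤ b (sh p i t))
      rw [card_univ, Fintype.card_fin] at this
      omega
    calc 2 ^ (p - 2) ≤ 2 ^ (univ.filter fun t : Fin p => ¬ a - 1 ≤ b (sh p i t)).card :=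
          Nat.pow_le_pow_right (by norm_num) hgood
      _ = ∏ t : Fin p, (if ¬ a - 1 ≤ b (sh p i t) then 2 else 1) := by
          rw [Finset.prod_ite, prod_const, prod_const_one, mul_one]
      _ ≤ ∏ t : Fin p, (univ.filter fun s : Fin a => (sh p i t, s) ∉ B).card := by
          apply Finset.prod_le_prod' 
          intro t _
          have := Finset.card_filter_add_card_filter_not (s := univ)
            (fun s : Fin a => (sh p i t, s) ∈ B)
          rw [card_univ, Fintype.card_fin] at this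
          have e := hi t
          simp only [hb] at e ⊢
          split_ifs <;> omega
      _ = ((Fintype.piFinset fun t : Fin p =>
            univ.filter fun s : Fin a => (sh p i t, s) ∉ B).image (mem p a i)).card := by
          rw [card_image_of_injective _ (mem_inj p a i), Fintype.card_piFinset]
      _ ≤ ((fam p a).filter fun A => A ∩ B = ∅).card := by
          refine Finset.card_le_card ?_
          intro A hA
          obtain ⟨f, hf, rfl⟩ := mem_image.1 hA
          refine mem_filter.2 ⟨mem_image.2 ⟨(i, f), mem_univ _, rfl⟩, ?_⟩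
          rw [Finset.eq_empty_iff_forall_notMem]
          intro x hx
          obtain ⟨hx1, hx2⟩ := mem_inter.1 hx
          rcases (mem_mem ..).1 hx1 with h | ⟨t, rfl⟩
          · have : x.2 ∈ univ.filter fun s : Fin a => (i, s) ∈ B := by
              simp only [mem_filter, mem_univ, true_and]
              rw [← h]; exact hx2
            rw [Finset.card_eq_zero.1 hi0] at this
            exact absurd this (notMem_empty _)
          · exact (mem_filter.1 (Fintype.mem_piFinset.1 hf t)).2 hx2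

end cyc

def plane {n : ℕ} (m : Fin n → Fin n → Bool) : Finset (Finset (Fin n)) :=
  univ.image fun i => univ.filter fun x => m i x = true

def diff (n : ℕ) (D : List ℕ) (i x : Fin n) : Bool := D.elem ((x.1 + n - i.1) % n)

theorem pre_of_dec {n : ℕ} (k : ℕ) (hk : 3 ≤ k) (F : Finset (Finset (Fin n)))
    (h : F.Nonempty ∧ (∀ A ∈ F, A.card = k) ∧ (∀ A ∈ F, ∀ B ∈ F, (A ∩ B).Nonempty) ∧
      (k - 1) * k + 1 ≤ F.card ∧ (∀ x, (F.filter fun A => x ∈ A).card ≤ k) ∧
      ∀ x y, ∃ A ∈ F, x ∈ A ∧ y ∈ A) : Pre k 2 F := by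
  obtain ⟨h0, h1, h2, h3, h4, h5⟩ := h
  refine ⟨h0, h1, h2, fun B hB => ?_⟩
  obtain ⟨x, hx, y, hy, hxy⟩ := Finset.one_lt_card.1 (show 1 < B.card by omega)
  obtain ⟨A, hA, hxA, hyA⟩ := h5 x y
  have e1 := Finset.card_filter_add_card_filter_not (s := F) (fun A => A ∩ B = ∅)
  have e2 : (F.filter fun A => ¬ A ∩ B = ∅) ⊆
      ((F.filter fun A => x ∈ A).erase A) ∪
        (B.erase x).biUnion fun z => F.filter fun A => z ∈ A := by
    intro C hC
    obtain ⟨hCF, hC⟩ := mem_filter.1 hC
    obtain ⟨z, hz⟩ := Finset.nonempty_iff_ne_empty.2 hC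
    obtain ⟨hz1, hz2⟩ := mem_inter.1 hz
    simp only [mem_union, mem_erase, mem_filter, mem_biUnion]
    by_cases hCA : C = A
    · exact Or.inr ⟨y, ⟨hxy.symm, hy⟩, hCF, hCA ▸ hyA⟩
    · by_cases hzx : z = x
      · exact Or.inl ⟨hCA, hCF, hzx ▸ hz1⟩
      · exact Or.inr ⟨z, ⟨hzx, hz2⟩, hCF, hz1⟩
  have e3 := (Finset.card_le_card e2).trans (Finset.card_union_le _ _)
  rw [Finset.card_erase_of_mem (mem_filter.2 ⟨hA, hxA⟩)] at e3
  have e4 : ((B.erase x).biUnion fun z => F.filter fun A => z ∈ A).card ≤ (k - 2) * k := by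
    refine (Finset.card_biUnion_le_card_mul _ _ k fun z _ => h4 z).trans ?_
    rw [Finset.card_erase_of_mem hx, hB]
    exact le_of_eq rfl
  have e5 := h4 x
  have e6 : (k - 1) * k = (k - 2) * k + k := by
    rw [show k - 1 = (k - 2) + 1 by omega]; ring
  omega

theorem pre_plane {n : ℕ} (k : ℕ) (hk : 3 ≤ k) (hn : (k - 1) * k + 1 ≤ n)
    (m : Fin n → Fin n → Bool)
    (h1 : ∀ i, (univ.filter fun x => m i x = true).card = k)
    (h2 : ∀ i j, ∃ x, m i x = true ∧ m j x = true)
    (h3 : ∀ i j, i = j ∨ ∃ x, m i x ≠ m j x)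
    (h4 : ∀ x, (univ.filter fun i => m i x = true).card ≤ k)
    (h5 : ∀ x y, ∃ i, m i x = true ∧ m i y = true) : Pre k 2 (plane m) := by
  apply pre_of_dec k hk
  refine ⟨⟨_, mem_image_of_mem _ (mem_univ ⟨0, by omega⟩)⟩, ?_, ?_, ?_, ?_, ?_⟩
  · intro A hA
    obtain ⟨i, -, rfl⟩ := mem_image.1 hA
    exact h1 i
  · intro A hA B hB
    obtain ⟨i, -, rfl⟩ := mem_image.1 hA
    obtain ⟨j, -, rfl⟩ := mem_image.1 hB
    obtain ⟨x, hx⟩ := h2 i j
    exact ⟨x, by simpa using hx⟩
  · rw [plane, card_image_of_injective]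
    · simpa using hn
    · intro i j h
      rcases h3 i j with h' | ⟨x, hx⟩
      · exact h'
      · have := Finset.ext_iff.1 h x
        simp only [mem_filter, mem_univ, true_and] at this
        exact absurd (Bool.eq_iff_iff.2 this) hx
  · intro x
    rw [plane, Finset.filter_image]
    refine Finset.card_image_le.trans (le_trans (le_of_eq ?_) (h4 x))
    congr 1
    ext i
    simp
  · intro x y
    obtain ⟨i, hi⟩ := h5 x y
    exact ⟨_, mem_image_of_mem _ (mem_univ i), by simpa using hi⟩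

theorem p3 : Pre 3 2 (plane (diff 7 [0, 1, 3])) :=
  pre_plane _ (by norm_num) (by norm_num) _ (by decide +kernel) (by decide +kernel)
    (by decide +kernel) (by decide +kernel) (by decide +kernel)
theorem p4 : Pre 4 2 (plane (diff 13 [0, 1, 3, 9])) :=
  pre_plane _ (by norm_num) (by norm_num) _ (by decide +kernel) (by decide +kernel)
    (by decide +kernel) (by decide +kernel) (by decide +kernel)
theorem p5 : Pre 5 2 (plane (diff 21 [0, 1, 4, 14, 16])) :=
  pre_plane _ (by norm_num) (by norm_num) _ (by decide +kernel) (by decide +kernel)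
    (by decide +kernel) (by decide +kernel) (by decide +kernel)

theorem num (p : ℕ) (hp : 3 ≤ p) : (1.1 : ℝ) ^ (2 * p + 1) < 2 ^ (p - 2) := by
  induction p, hp using Nat.le_induction with
  | base => norm_num
  | succ p hp ih =>
    have e1 : 2 * (p + 1) + 1 = (2 * p + 1) + 2 := by ring
    have e2 : p + 1 - 2 = (p - 2) + 1 := by omega
    rw [e1, e2, pow_add, pow_succ (2 : ℝ)]
    have : (0 : ℝ) < 1.1 ^ (2 * p + 1) := by positivity
    nlinarith

/-- `m(k, k-1) > 1.1 ^ k` for all `k ≥ 3`. -/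
theorem result : ∃ c : ℝ, 1 < c ∧ ∀ k : ℕ, 3 ≤ k → ∃ (n : ℕ) (F : Finset (Finset (Fin n))),
    Good k F ∧ k ≤ n ∧ ∀ B : Finset (Fin n), B.card = k - 1 →
      c ^ k < ((F.filter fun A => A ∩ B = ∅).card : ℝ) := by
  refine ⟨1.1, by norm_num, fun k hk => ?_⟩
  have key : ∀ (n r : ℕ) (F : Finset (Finset (Fin n))), Pre k r F → (1.1 : ℝ) ^ k < r →
      ∃ (n : ℕ) (F : Finset (Finset (Fin n))),
      Good k F ∧ k ≤ n ∧ ∀ B : Finset (Fin n), B.card = k - 1 →
      (1.1 : ℝ) ^ k < ((F.filter fun A => A ∩ B = ∅).card : ℝ) := by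
    intro n r F hF hr
    have h1 : 1 ≤ r := by
      have : (0 : ℝ) < r := lt_trans (by positivity) hr
      exact_mod_cast this
    refine ⟨n, F, good_of_pre k r h1 F hF, ?_, fun B hB => lt_of_lt_of_le hr ?_⟩
    · obtain ⟨A, hA⟩ := hF.1
      have := Finset.card_le_univ A
      rwa [hF.2.1 A hA, Fintype.card_fin] at this
    · exact_mod_cast hF.2.2.2 B hB
  by_cases h6 : 6 ≤ k
  · have hk' : k = (k - k / 2) + k / 2 := by omega
    have := pre_map (Fintype.equivFin _) _ _ _
      (pre_fam (k / 2) (k - k / 2) (by omega) (by omega) (by omega))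
    rw [← hk'] at this
    refine key _ _ _ this ?_
    have := num (k / 2) (by omega)
    push_cast
    exact lt_of_le_of_lt (pow_le_pow_right₀ (by norm_num) (by omega)) this
  · have : k = 3 ∨ k = 4 ∨ k = 5 := by omega
    rcases this with rfl | rfl | rfl
    · exact key _ _ _ p3 (by norm_num)
    · exact key _ _ _ p4 (by norm_num)
    · exact key _ _ _ p5 (by norm_num)

end Pool.Agent.Results.MP_2b3591_co.Exponential
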